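import Pool.Agent.H261R3.LN.SStmts
import Pool.Agent.H398R3.LN.AsmN

/-! Project LS (MP_e25190_gt): `TaskHLto`. -/

set_option autoImplicit false

namespace Pool.Agent.H344R3.LN

open Pool.Agent.H261R3.LN
open Pool.Agent.H261R3.LH (Lip1)
open Pool.Agent.H398R3.LN (cosh_sub_one_le hdist_symm arg_ge)

theorem logb_sub_le (a b : ℝ) (ha : 0 < a) (hab : a ≤ b) :
    |Real.logb 2 a - Real.logb 2 b| ≤ 2 * ((b - a) / a) := by
  have hb : 0 < b := ha.trans_le hab
  have h2 : 1 / 2 < Real.log 2 := by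
    have := Real.log_two_gt_d9
    linarith
  have h2' : 0 < Real.log 2 := by linarith
  have h1 : Real.log b - Real.log a ≤ (b - a) / a := by
    rw [← Real.log_div hb.ne' ha.ne']
    have := Real.log_le_sub_one_of_pos (div_pos hb ha)
    refine this.trans (le_of_eq ?_)
    field_simp
  have h3 : 0 ≤ Real.log b - Real.log a := sub_nonneg.2 (Real.log_le_log ha hab)
  have h4 : Real.logb 2 b - Real.logb 2 a = (Real.log b - Real.log a) / Real.log 2 := by
    unfold Real.logb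
    ring
  rw [abs_sub_comm, h4, abs_of_nonneg (div_nonneg h3 h2'.le), div_le_iff₀ h2']
  have h5 : 0 ≤ (b - a) / a := div_nonneg (by linarith) ha.le
  nlinarith

theorem main {m : ℕ} {S : Type} [MetricSpace S] {C : ℝ} (hC : 0 ≤ C)
    (G : (Fin m → ℝ) → ℝ → S) (hG : HL C G) (z w : Hyp m) (hzw : z.y ≤ w.y)
    (hd : hdist z w ≤ 1 / 4) :
    dist (G (fun i => z.x i) (Real.logb 2 z.y)) (G (fun i => w.x i) (Real.logb 2 w.y)) ≤
      6 * C * hdist z w := by
  have hz := z.pos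
  have hw := w.pos
  have hd0 : 0 ≤ hdist z w := Real.arcosh_nonneg (arg_ge z w)
  have hc := cosh_sub_one_le _ hd0 hd
  have hcosh : Real.cosh (hdist z w) =
      1 + (‖z.x - w.x‖ ^ 2 + (z.y - w.y) ^ 2) / (2 * z.y * w.y) :=
    Real.cosh_arcosh (arg_ge z w)
  rw [hcosh] at hc
  set d := hdist z w with hdd
  have h1 : ‖z.x - w.x‖ ^ 2 + (z.y - w.y) ^ 2 ≤ 2 * z.y * w.y * d ^ 2 := by
    have : (‖z.x - w.x‖ ^ 2 + (z.y - w.y) ^ 2) / (2 * z.y * w.y) ≤ d ^ 2 := by linarith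
    rw [div_le_iff₀ (by positivity)] at this
    linarith
  have hn := norm_nonneg (z.x - w.x)
  have hd2 : d ^ 2 ≤ 1 / 16 := by nlinarith
  have hy2 : w.y ≤ 2 * z.y := by
    by_contra hcon
    push Not at hcon
    have h3 : (z.y - w.y) ^ 2 ≤ 2 * z.y * w.y * (1 / 16) := by
      have : 2 * z.y * w.y * d ^ 2 ≤ 2 * z.y * w.y * (1 / 16) :=
        mul_le_mul_of_nonneg_left hd2 (by positivity)
      nlinarith [sq_nonneg ‖z.x - w.x‖]
    nlinarith [mul_pos hz hw]
  have h4 : ‖z.x - w.x‖ ^ 2 + (z.y - w.y) ^ 2 ≤ (2 * z.y * d) ^ 2 := by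
    have : 2 * z.y * w.y * d ^ 2 ≤ 2 * z.y * (2 * z.y) * d ^ 2 := by gcongr
    nlinarith
  have hzd : 0 ≤ 2 * z.y * d := by positivity
  have h5 : ‖z.x - w.x‖ ≤ 2 * z.y * d := by
    apply le_of_sq_le_sq _ hzd
    nlinarith [sq_nonneg (z.y - w.y)]
  have h6 : w.y - z.y ≤ 2 * z.y * d := by
    apply le_of_sq_le_sq _ hzd
    nlinarith [sq_nonneg ‖z.x - w.x‖]
  have e1 := hG.2 (fun i => z.x i) (Real.logb 2 z.y) (Real.logb 2 w.y)
  have e2 := hG.1 (Real.logb 2 w.y) (fun i => z.x i) (fun i => w.x i)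
  have e3 : (w.y - z.y) / z.y ≤ 2 * d := by
    rw [div_le_iff₀ hz]; linarith
  have e4 : |Real.logb 2 z.y - Real.logb 2 w.y| ≤ 4 * d :=
    (logb_sub_le z.y w.y hz hzw).trans (by linarith)
  have e5 : (2 : ℝ) ^ (-Real.logb 2 w.y) = 1 / w.y := by
    rw [Real.rpow_neg (by norm_num), Real.rpow_logb (by norm_num) (by norm_num) hw, one_div]
  have e6 : dist (fun i => z.x i : Fin m → ℝ) (fun i => w.x i) ≤ 2 * w.y * d := by
    have hwd : 0 ≤ 2 * w.y * d := by positivity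
    rw [dist_pi_le_iff hwd]
    intro i
    have h7 := PiLp.norm_apply_le (z.x - w.x) i
    rw [PiLp.sub_apply, Real.norm_eq_abs] at h7
    rw [Real.dist_eq]
    have h8 : 2 * z.y * d ≤ 2 * w.y * d := by gcongr
    exact (h7.trans h5).trans h8
  have e7 : C * (2 : ℝ) ^ (-Real.logb 2 w.y) *
      dist (fun i => z.x i : Fin m → ℝ) (fun i => w.x i) ≤ C * (2 * d) := by
    rw [e5, mul_assoc]
    apply mul_le_mul_of_nonneg_left _ hC
    rw [one_div, inv_mul_le_iff₀ hw]
    linarith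
  calc _ ≤ _ := dist_triangle _ (G (fun i => z.x i) (Real.logb 2 w.y)) _
    _ ≤ C * (4 * d) + C * (2 * d) :=
      add_le_add (e1.trans (mul_le_mul_of_nonneg_left e4 hC)) (e2.trans e7)
    _ = 6 * C * d := by ring

theorem taskHLto : TaskHLto := by
  intro m S _ C Δ hC hΔ
  refine ⟨6 * C + 4 * |Δ|, by positivity, ?_⟩
  intro G hG z w
  have hd : 0 ≤ hdist z w := Real.arcosh_nonneg (arg_ge z w)
  by_cases h : hdist z w ≤ 1 / 4
  · have h1 : dist (G (fun i => z.x i) (Real.logb 2 z.y)) (G (fun i => w.x i) (Real.logb 2 w.y)) ≤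
        6 * C * hdist z w := by
      rcases le_total z.y w.y with h2 | h2
      · exact main hC G hG z w h2 h
      · rw [dist_comm, hdist_symm z w]
        rw [hdist_symm z w] at h
        exact main hC G hG w z h2 h
    have h2 : 0 ≤ 4 * |Δ| * hdist z w := by positivity
    linarith
  · push Not at h
    have h1 := hΔ (G (fun i => z.x i) (Real.logb 2 z.y)) (G (fun i => w.x i) (Real.logb 2 w.y))
    have h2 : Δ ≤ |Δ| := le_abs_self Δ
    have h3 : |Δ| * 1 ≤ |Δ| * (4 * hdist z w) :=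
      mul_le_mul_of_nonneg_left (by linarith) (abs_nonneg _)
    have h4 : 0 ≤ 6 * C * hdist z w := by positivity
    linarith

end Pool.Agent.H344R3.LN
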